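import Pool.Agent.TH143.GT.Sec
import Pool.Agent.TH766.IQ.Main

/-!
Fibrations on uniruled varieties: if the base has Kodaira dimension at least `0`, then the canonical
divisor of the general fibre is not pseudo-effective.
-/

set_option autoImplicit false
set_option linter.overlappingInstances false
set_option linter.unusedSectionVars false
set_option maxHeartbeats 400000

open FF IntermediateField Pool.Agent.W619.PQ Pool.Agent.W619.TW
open Pool.Agent.W619.X Pool.Agent.W619.Y Pool.Agent.TH143.GT Pool.Agent.W603.LV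

namespace Pool.Agent.TH766.IT

theorem log_reg {k K : Type} [Field k] [Field K] [Algebra k K] {v : Place k K}
    {D : Derivation k K K} (hD : ∀ f, v.Reg (D f / f)) (f : K) (hf : v.Reg f) : v.Reg (D f) := by
  by_cases hf0 : f = 0
  · rw [hf0, map_zero]
    exact Or.inl rfl
  · have h4 : D f = f * (D f / f) := by field_simp
    rw [h4]
    exact v.reg_mul hf (hD f)

theorem psef_conv {k K : Type} [Field k] [Field K] [Algebra k K] {n : ℕ}
    (hk : IsPsef k K n (fun _ => False)) : Pool.Agent.W602.GT.Psef k K n (fun _ => False) := by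
  obtain ⟨S, hS⟩ := hk
  refine ⟨S, fun N => ?_⟩
  obtain ⟨j, hj, ω, ⟨h1, h2, -⟩, hD⟩ := hS N
  refine ⟨j, hj, ω, ⟨h1, fun P hP D hD => ?_, fun P hP _ D hD => ?_⟩, hD⟩
  · exact h2 P hP (fun h => h) D fun l f hf => log_reg (hD l) f hf
  · exact h2 P hP (fun h => h) D hD

theorem bdUp_false' {k K L : Type} [Field k] [Field K] [Field L] [Algebra k K] [Algebra k L]
    [Algebra K L] : (BdUp (fun _ : Place k K => False) : Place k L → Prop) = fun _ => False := by
  funext w
  apply propext
  constructor
  · rintro ⟨v, e, -, h⟩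
    exact h
  · intro h
    exact h.elim

/-- the functions on a variety with pluricanonical forms are constant along rational curves -/
theorem base_const {k B R : Type} [Field k] [CharZero k] [Field B] [Field R] [Algebra k B]
    [Algebra k R] [Algebra B R] [IsScalarTower k B R] [Algebra.EssFiniteType k B] {b n : ℕ}
    (hb : Algebra.trdeg k B = b) (hn : Algebra.trdeg k R = n)
    (hB : IsEff k B b (fun _ => False)) (δ : Derivation k R R) {σ : R} (hσ0 : σ ≠ 0)
    (hσ : δ σ = σ) (htop : (Pool.Agent.W602.GT.consts δ)⟮σ⟯ = ⊤) (r : B) :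
    δ (algebraMap B R r) = 0 := by
  classical
  by_contra hr
  obtain ⟨m, hm, ω, ⟨h1, h2, -⟩, D0, hD0⟩ := hB
  obtain ⟨y0, hy0⟩ := exists_fin_basis (k := k) b hb
  choose E hE using fun i => Pool.Agent.W602.GT.exists_der y0 hy0
    (fun j => if i = j then (1 : B) else 0)
  have hD : Dual y0 E := ⟨hy0, hE⟩
  let ℓ : Derivation k B B →ₗ[B] (Fin b → B) :=
    { toFun := fun D j => D (y0 j)
      map_add' := fun D D' => rfl
      map_smul' := fun c D => rfl }
  let θ : AlternatingMap B (Derivation k B B) B (Fin b) :=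
    (Matrix.detRowAlternating : AlternatingMap B (Fin b → B) B (Fin b)).compLinearMap ℓ
  have hθ : ∀ D : Fin b → Derivation k B B, θ D = (Matrix.of fun i j => D i (y0 j)).det :=
    fun D => rfl
  have hθE : θ E = 1 := by
    rw [hθ]
    have h2 : (Matrix.of fun i j => E i (y0 j)) = (1 : Matrix (Fin b) (Fin b) B) := by
      ext i j
      rw [Matrix.of_apply, hE, Matrix.one_apply]
    rw [h2, Matrix.det_one]
  have hωθ : ∀ D, ω E * θ D ^ m = ω D := by
    intro D
    have h1 := h1 (Matrix.of fun i j => D i (y0 j)) E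
    have h2 : (fun i => ∑ j, (Matrix.of fun i j => D i (y0 j)) i j • E j) = D := by
      funext i
      exact (hD.expand (D i)).symm
    rw [h2] at h1
    rw [h1, hθ, mul_comm]
  have hreg : ∀ v : Place k B, Pool.Agent.W602.GT.Divisorial b v →
      ∀ D : Fin b → Derivation k B B, (∀ i f, v.Reg f → v.Reg (D i f)) → v.Reg (ω D) := by
    intro v hv D hD
    rcases h2 v hv (fun h => h) D hD with h3 | ⟨s, -, -, h3⟩
    · exact Or.inl h3
    · right
      simpa using h3
  have hzero := core_zero hb hn θ (by omega : 0 < m) (ω E) (Bd := fun _ => False)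
    (fun v hv D hDl => by
      rw [hωθ]
      exact hreg v hv D fun i f hf => log_reg (hDl i) f hf)
    (fun v hv _ D hDr => by
      rw [hωθ]
      exact hreg v hv D hDr) hD (by rw [hθE]; exact one_ne_zero) δ hσ0 hσ htop hr
    (fun _ _ _ _ _ _ h => h)
  apply hD0
  rw [← hωθ, hzero, zero_mul]

/-- the ruled case -/
theorem fibre_ruled {k B K R : Type} [Field k] [CharZero k] [Field B] [Field K] [Field R]
    [Algebra k B] [Algebra k K] [Algebra k R] [Algebra B K] [Algebra B R] [Algebra K R]
    [IsScalarTower k B R] [IsScalarTower k B K] [IsScalarTower B K R]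
    [Algebra.EssFiniteType k B] [Algebra.EssFiniteType k K] [FiniteDimensional K R]
    {b n f : ℕ} (hb : Algebra.trdeg k B = b) (hn : Algebra.trdeg k R = n)
    (hf : Algebra.trdeg B K = f) (hB : IsEff k B b (fun _ => False)) (δ : Derivation k R R) {σ : R}
    (hσ0 : σ ≠ 0) (hσ : δ σ = σ) (htop : (Pool.Agent.W602.GT.consts δ)⟮σ⟯ = ⊤) :
    ¬ IsPsef B K f (fun _ => False) := by
  have hc := base_const hb hn hB δ hσ0 hσ htop
  have hcB : CharZero B := charZero_of_injective_algebraMap (algebraMap k B).injective
  intro hp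
  have hessBK : Algebra.EssFiniteType B K := Algebra.EssFiniteType.of_comp k B K
  have hT := pTRANS B K R f hf (fun y hy => fin_over y hy) (fun _ => False)
  rw [bdUp_false'] at hT
  have h1 : Algebra.trdeg B R = f := by
    rw [← trdeg_add_eq B K (A := R), hf, trdeg_eq_zero (R := K) (A := R), add_zero]
  let δ' : Derivation B R R :=
    { toFun := δ
      map_add' := δ.map_add
      map_smul' := fun c x => by
        have h2 : δ (c • x) = algebraMap B R c * δ x := by
          rw [Algebra.smul_def c x, δ.leibniz, hc c, smul_zero, add_zero, smul_eq_mul]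
        rw [h2, RingHom.id_apply, Algebra.smul_def c (δ x)]
      map_one_eq_zero' := δ.map_one_eq_zero
      leibniz' := δ.leibniz }
  have hδ' : ∀ x, δ' x = δ x := fun x => rfl
  have htopC : (Pool.Agent.W602.GT.consts δ')⟮σ⟯ = ⊤ := by
    rw [eq_top_iff]
    intro z _
    have hz : z ∈ (Pool.Agent.W602.GT.consts δ)⟮σ⟯ := by rw [htop]; trivial
    induction hz using IntermediateField.adjoin_induction with
    | mem x hx => exact IntermediateField.subset_adjoin _ _ hx
    | algebraMap c =>
      exact ((Pool.Agent.W602.GT.consts δ')⟮σ⟯).algebraMap_mem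
        (⟨c.1, c.2⟩ : Pool.Agent.W602.GT.consts δ')
    | add x y _ _ hx hy => exact add_mem (hx trivial) (hy trivial)
    | inv x _ hx => exact inv_mem (hx trivial)
    | mul x y _ _ hx hy => exact mul_mem (hx trivial) (hy trivial)
  exact Pool.Agent.W602.GT.not_psef h1 δ' hσ0 hσ htopC (fun _ _ _ h => h) (psef_conv (hT.1 hp))

end Pool.Agent.TH766.IT
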