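import Pool.Agent.TH766.IT.Base

/-!
Subadditivity for fibrations whose total space is an iterated quotient of general type or uniruled.
-/

set_option autoImplicit false
set_option linter.overlappingInstances false
set_option linter.unusedSectionVars false
set_option maxHeartbeats 400000

open FF IntermediateField Pool.Agent.W619.PQ Pool.Agent.W619.TW
open Pool.Agent.W619.X Pool.Agent.W619.Y Pool.Agent.TH143.GT Pool.Agent.W603.LV
open Pool.Agent.TH766.IQ Pool.Agent.TH766.NT

namespace Pool.Agent.TH766.IT

/-- `ν ≤ dim`, over an arbitrary field of characteristic zero -/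
theorem numLe_topG {k K : Type} [Field k] [CharZero k] [Field K] [Algebra k K]
    [Algebra.EssFiniteType k K] {n : ℕ} (hn : Algebra.trdeg k K = (n + 1 : ℕ)) :
    NumLe k K (n + 1) (fun _ => False) (n + 1) := by
  obtain ⟨z, hz⟩ := exists_fin_basis (k := k) (n + 1) hn
  obtain ⟨E, _, _, _, _, hfin, F, hF1, hF2, hF⟩ := exists_galois hz
  have halg : Algebra.IsAlgebraic K E := inferInstance
  have hess : Algebra.EssFiniteType k E := Algebra.EssFiniteType.comp k K E
  have hzE : IsTranscendenceBasis k (fun j => algebraMap K E (z j)) := by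
    have h1 : IsTranscendenceBasis k (algebraMap K E ∘ z) := hz.algebraMap_comp
    exact h1
  obtain ⟨hfinG, hfix⟩ := Pool.Agent.TH122.AB.fixing_props F
  have hmem : ∀ j, algebraMap K E (z j) ∈ fixedField F.fixingSubgroup := by
    intro j
    rw [hfix, hF]
    exact subset_adjoin _ _ ⟨j, rfl⟩
  have h1 : NumLe k E (n + 1) (fun _ => False) (n + 1) :=
    numLe_gal F.fixingSubgroup (X := fun j => ⟨algebraMap K E (z j), hmem j⟩)
      (Pool.Agent.TH122.AB.gens_of (Z := fun j => algebraMap K E (z j)) hzE.1 (hfix.trans hF)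
        fun j => rfl) hzE fun y hy => fin_over y hy
  have hT := pTRANS k K E (n + 1) hn (fun y hy => fin_over y hy) (fun _ => False)
  rw [bdUp_false'] at hT
  exact hT.2.2 _ h1

theorem numLe_pointG {k K : Type} [Field k] [CharZero k] [Field K] [Algebra k K]
    [Algebra.EssFiniteType k K] (h : Algebra.trdeg k K = 0) (Bd : Place k K → Prop) :
    NumLe k K 0 Bd 0 := by
  have halg : Algebra.IsAlgebraic k K := trdeg_eq_zero_iff.1 h
  have hfin : Module.Finite k K := Algebra.finite_of_essFiniteType_of_isAlgebraic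
  intro S
  refine ⟨Module.finrank k K, fun m N _ hI => ?_⟩
  obtain ⟨ω, hω, -⟩ := hI
  let ev : ((Fin 0 → Derivation k K K) → K) →ₗ[k] K :=
    LinearMap.proj (default : Fin 0 → Derivation k K K)
  have hker : LinearMap.ker ev = ⊥ := by
    rw [LinearMap.ker_eq_bot]
    intro f g hfg
    funext D
    rw [Subsingleton.elim D default]
    exact hfg
  have h1 : LinearIndependent k (ev ∘ ω) := hω.map' ev hker
  have h2 := h1.fintype_card_le_finrank
  rw [Fintype.card_fin] at h2
  simpa using h2

theorem numLe_dimG {k K : Type} [Field k] [CharZero k] [Field K] [Algebra k K]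
    [Algebra.EssFiniteType k K] {d : ℕ} (hd : Algebra.trdeg k K = d) :
    NumLe k K d (fun _ => False) d := by
  rcases d with _ | d
  · exact numLe_pointG (by simpa using hd) _
  · exact numLe_topG hd

/-- `κ ≤ dim` -/
theorem kod_le_dim {k K : Type} [Field k] [CharZero k] [Field K] [Algebra k K]
    [Algebra.EssFiniteType k K] {d h : ℕ} (hd : Algebra.trdeg k K = d)
    (hk : KodGe k K d (fun _ => False) h) : h ≤ d := by
  have h0 : ∀ v : Place k K, (0 : ℝ) ≤ (0 : Place k K → ℝ) v := fun v => le_rfl
  exact Pool.Agent.TH194.LP.kod_num (Pool.Agent.TH194.LP.lpkod_of h0 hk)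
    (Pool.Agent.TH194.LP.lpnum_zero (numLe_dimG hd))

/-- the general fibre of a fibration of a uniruled variety over a variety with `κ ≥ 0` -/
theorem fibre_uniruled {K : Type} [Field K] [Algebra ℂ K] [Algebra.EssFiniteType ℂ K] {n b f : ℕ}
    (hn : Algebra.trdeg ℂ K = n) (h : IsUniruled ℂ K n) (B : IntermediateField ℂ K)
    [Algebra.EssFiniteType ℂ B] (hb : Algebra.trdeg ℂ B = b) (hf : Algebra.trdeg B K = f)
    (hB : IsEff ℂ B b (fun _ => False)) : ¬ IsPsef B K f (fun _ => False) := by
  obtain ⟨M, _, _, hM, htr, ⟨φ⟩⟩ := h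
  let _ : Algebra K (RatFunc M) := φ.toRingHom.toAlgebra
  have t1 : IsScalarTower ℂ K (RatFunc M) := IsScalarTower.of_algebraMap_eq fun c => by
    change _ = φ (algebraMap ℂ K c)
    rw [φ.commutes]
  have t2 : IsScalarTower B K (RatFunc M) := IsScalarTower.of_algebraMap_eq fun c => rfl
  have t3 : IsScalarTower ℂ B (RatFunc M) := IsScalarTower.of_algebraMap_eq fun c => by
    rw [IsScalarTower.algebraMap_apply ℂ K (RatFunc M),
      IsScalarTower.algebraMap_apply B K (RatFunc M), ← IsScalarTower.algebraMap_apply ℂ B K]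
  have hFF : IsFF M (RatFunc M) := by
    refine IsFF.of_finite (f := (RatFunc.X : RatFunc M)) RatFunc.transcendental_X ?_
    rw [RatFunc.adjoin_X]
    exact Module.Finite.of_surjective (Algebra.linearMap (⊤ : IntermediateField M (RatFunc M))
      (RatFunc M)) fun z => ⟨⟨z, trivial⟩, rfl⟩
  have hess0 : Algebra.EssFiniteType M (RatFunc M) := hFF.ess
  have hessR : Algebra.EssFiniteType ℂ (RatFunc M) := Algebra.EssFiniteType.comp ℂ M (RatFunc M)
  have hR : Algebra.trdeg ℂ (RatFunc M) = n := by
    rw [← trdeg_add_eq ℂ M (A := RatFunc M), hFF.trdeg]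
    exact htr
  obtain ⟨y, hy⟩ := exists_fin_basis (k := ℂ) n hn
  have hyR : AlgebraicIndependent ℂ (fun i => φ (y i)) := hy.1.map' φ.injective
  have hyb : IsTranscendenceBasis ℂ (fun i => φ (y i)) := by
    refine hyR.isTranscendenceBasis_of_lift_trdeg_le_of_finite ?_
    rw [hR]
    simp
  have halg : Algebra.IsAlgebraic K (RatFunc M) := by
    have h1 : Algebra.IsAlgebraic (IntermediateField.adjoin ℂ (Set.range fun i => φ (y i)))
      (RatFunc M) := hyb.isAlgebraic_field
    refine ⟨fun z => ?_⟩
    have h2 := h1.isAlgebraic z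
    have hle : IntermediateField.adjoin ℂ (Set.range fun i => φ (y i)) ≤ φ.fieldRange := by
      rw [adjoin_le_iff]
      rintro _ ⟨i, rfl⟩
      exact ⟨y i, rfl⟩
    let e : K ≃ₐ[ℂ] φ.fieldRange := AlgEquiv.ofInjectiveField φ
    let g : IntermediateField.adjoin ℂ (Set.range fun i => φ (y i)) →+* K :=
      (e.symm : φ.fieldRange →+* K).comp (inclusion hle).toRingHom
    refine h2.ringHom_of_comp_eq g (RingHom.id _) g.injective ?_
    ext w
    change φ (e.symm (inclusion hle w)) = (w : RatFunc M)
    have h3 : e (e.symm (inclusion hle w)) = inclusion hle w := e.apply_symm_apply _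
    exact congrArg Subtype.val h3
  have hfd : FiniteDimensional K (RatFunc M) := by
    have h1 : Algebra.EssFiniteType K (RatFunc M) := Algebra.EssFiniteType.of_comp ℂ K (RatFunc M)
    obtain ⟨s, hs⟩ := IntermediateField.fg_top K (RatFunc M)
    have h2 : FiniteDimensional K (IntermediateField.adjoin K (s : Set (RatFunc M))) :=
      IntermediateField.finiteDimensional_adjoin fun x _ => (halg.isAlgebraic x).isIntegral
    rw [hs] at h2
    exact h2.equiv IntermediateField.topEquiv.toLinearEquiv
  have hcM : CharZero M := charZero_of_injective_algebraMap (algebraMap ℂ M).injective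
  have hXM : Transcendental M (RatFunc.X : RatFunc M) := RatFunc.transcendental_X
  have htopM : M⟮(RatFunc.X : RatFunc M)⟯ = ⊤ := RatFunc.adjoin_X
  obtain ⟨D0, hD0⟩ := Pool.Agent.W602.GT.exists_der (L := M) (fun _ : Unit => (RatFunc.X : RatFunc M))
    (IsFF.basis hXM) (fun _ => RatFunc.X)
  let δ : Derivation ℂ (RatFunc M) (RatFunc M) := D0.restrictScalars ℂ
  have hδX : δ RatFunc.X = RatFunc.X := hD0 ()
  have hδM : ∀ c : M, δ (algebraMap M (RatFunc M) c) = 0 := fun c => D0.map_algebraMap c
  have htop : (Pool.Agent.W602.GT.consts δ)⟮(RatFunc.X : RatFunc M)⟯ = ⊤ := by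
    rw [eq_top_iff]
    intro f _
    have hf : f ∈ M⟮(RatFunc.X : RatFunc M)⟯ := by rw [htopM]; exact mem_top
    induction hf using IntermediateField.adjoin_induction with
    | mem x hx =>
      rw [Set.mem_singleton_iff] at hx
      rw [hx]
      exact IntermediateField.mem_adjoin_simple_self _ _
    | algebraMap c =>
      exact (Pool.Agent.W602.GT.consts δ)⟮(RatFunc.X : RatFunc M)⟯.algebraMap_mem
        ⟨algebraMap M (RatFunc M) c, hδM c⟩
    | add x y _ _ hx hy => exact add_mem (hx mem_top) (hy mem_top)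
    | inv x _ hx => exact inv_mem (hx mem_top)
    | mul x y _ _ hx hy => exact mul_mem (hx mem_top) (hy mem_top)
  exact fibre_ruled hb hR hf hB δ RatFunc.X_ne_zero hδX htop

/-- **Subadditivity.** -/
theorem main {K : Type} [Field K] [Algebra ℂ K] {d : ℕ} {κ : WithBot ℕ} (hK : IsTower K d κ)
    (hκ : κ = ⊥ ∨ κ = d) (B : IntermediateField ℂ K) [Algebra.EssFiniteType ℂ B] {b f h : ℕ}
    (hb : Algebra.trdeg ℂ B = b) (hf : Algebra.trdeg B K = f)
    (hB : IsEff ℂ B b (fun _ => False)) (hF : KodGe B K f (fun _ => False) h) :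
    KodGe ℂ K d (fun _ => False) (h + b) := by
  obtain ⟨hess, htr, -⟩ := Pool.Agent.TH766.IQ.main hK
  have hcB : CharZero B := charZero_of_injective_algebraMap (algebraMap ℂ B).injective
  have hessBK : Algebra.EssFiniteType B K := Algebra.EssFiniteType.of_comp ℂ B K
  have hsum : b + f = d := by
    have h1 := trdeg_add_eq ℂ B (A := K)
    rw [hb, hf, htr] at h1
    exact_mod_cast h1
  have hle := kod_le_dim hf hF
  rcases Pool.Agent.TH766.IQ.final hK with ⟨h1, h2, -⟩ | ⟨a, h1, -, h3, -⟩
  · exact absurd (psef_of_eff (Pool.Agent.TH194.LP.eff_of_kod hF))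
      (fibre_uniruled htr h2 B hb hf hB)
  · have h4 : κ = d := by
      rcases hκ with h5 | h5
      · rw [h5] at h1
        exact absurd h1.symm (WithBot.coe_ne_bot)
      · exact h5
    have h6 : a = d := by
      rw [h4] at h1
      exact (WithBot.coe_injective h1).symm
    rw [h3]
    omega

end Pool.Agent.TH766.IT
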